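import Mathlib
import Pool.Agent.Q115.McBaer

set_option autoImplicit false
set_option linter.unusedSectionVars false
set_option linter.unusedSimpArgs false

/-!
# A pseudocentral Baer group that is not a Fitting group

`M` is the McLain group of the rationals over the field with two elements acting on the space `U`
with basis `ℚ`; `G` is the subgroup of the wreath product `(U → ZMod 2) ⋊ M` generated by the
conjugates of the transvections of `M` by the finitely supported functions on `U`.
-/

namespace Pool.Agent.Results.MP_a7b7fa_al.PseudocentralBaer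

open Pool.Agent.Q115.McLain Pool.Agent.Q115.McGam Pool.Agent.Q115.McBaer
open scoped commutatorElement

/-- The pseudocentre `P(G)`: the intersection of the normal closures of the centralizers of the
elements of `G`. -/
def pseudocentre (G : Type) [Group G] : Subgroup G :=
  ⨅ g : G, Subgroup.normalClosure (Subgroup.centralizer {g} : Set G)

/-- `G` is pseudocentral: `P(G) = G`. -/
def IsPseudocentral (G : Type) [Group G] : Prop := pseudocentre G = ⊤

/-- `G` is a Baer group: every cyclic subgroup of `G` is subnormal in `G`. -/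
def IsBaer (G : Type) [Group G] : Prop := ∀ g : G, (Subgroup.zpowers g).IsSubnormal

/-- `G` is a Fitting group: every element lies in a nilpotent normal subgroup. -/
def IsFitting (G : Type) [Group G] : Prop :=
  ∀ g : G, ∃ N : Subgroup G, N.Normal ∧ Group.IsNilpotent N ∧ g ∈ N

noncomputable section

/-- invariant of the functions used -/
def Inv (b : ℚ) (f : U → ZMod 2) : Prop := f (v 0) = 1 ∧ ∀ u, f u ≠ 0 → ∀ q, b < q → u q = 0

theorem Inv.step {b l : ℚ} (hb : 0 ≤ b) (hl : b < l) {f : U → ZMod 2} (h : Inv b f) :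
    Inv l (D (t 0 l (lt_of_le_of_lt hb hl).ne) f) := by
  have h0 : (0 : ℚ) < l := lt_of_le_of_lt hb hl
  obtain ⟨h1, h2⟩ := h
  refine ⟨?_, ?_⟩
  · simp only [D, t_inv, t_apply]
    rw [h1]
    have : f (v 0 + Finsupp.single l ((v 0 : U) 0)) = 0 := by
      by_contra hne
      have h3 := h2 _ hne l hl
      rw [Finsupp.add_apply, Finsupp.single_eq_same, Finsupp.single_eq_same,
        Finsupp.single_eq_of_ne h0.ne'] at h3
      simp at h3
    rw [this, add_zero]
  · intro u hu q hq
    simp only [D, t_inv] at hu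
    by_cases h3 : f u = 0
    · rw [h3, zero_add] at hu
      have h4 := h2 _ hu q (hl.trans hq)
      rw [t_apply, Finsupp.add_apply, Finsupp.single_eq_of_ne hq.ne', add_zero] at h4
      exact h4
    · exact h2 u h3 q (hl.trans hq)

/-- the sequence of functions -/
def fs : ℕ → (U → ZMod 2)
  | 0 => D (t 0 1 (by norm_num)) (D (t 0 (1 / 2) (by norm_num)) (Finsupp.single (v 0) 1))
  | k + 1 => D (t 0 ((k : ℚ) + 2) (by positivity)) (fs k)

theorem fs_inv (k : ℕ) : Inv ((k : ℚ) + 1) (fs k) := by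
  induction k with
  | zero =>
    have h0 : Inv 0 (Finsupp.single (v 0) (1 : ZMod 2)) := by
      refine ⟨Finsupp.single_eq_same, fun u hu q hq => ?_⟩
      have : u = v 0 := by
        by_contra hne
        exact hu (Finsupp.single_eq_of_ne hne)
      rw [this, Finsupp.single_eq_of_ne hq.ne']
    have h1 := h0.step le_rfl (l := 1 / 2) (by norm_num)
    have h2 := h1.step (by norm_num) (l := 1) (by norm_num)
    simpa [fs] using h2
  | succ k ih =>
    have h2 := ih.step (by positivity) (l := (k : ℚ) + 2) (by linarith)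
    have e : ((k + 1 : ℕ) : ℚ) + 1 = (k : ℚ) + 2 := by push_cast; ring
    rw [e]
    exact h2

/-- commutator of a function with an automorphism -/
theorem comm_io (h : U → ZMod 2) (x : (End)ˣ) : ⁅io h, c 0 x⁆ = io (D x h) := by
  rw [commutatorElement_def]
  refine Gam.ext (funext fun u => ?_) ?_
  · simp [c_zero, io, D, mul_f, mul_x, inv_f, inv_x]
  · simp [c_zero, io, mul_x, inv_x]

theorem io_eq (h : U → ZMod 2) (x : (End)ˣ) : c h x * (c 0 x)⁻¹ = io (D x h) := by
  refine Gam.ext (funext fun u => ?_) ?_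
  · simp [c, io, D, mul_f, mul_x, inv_f, inv_x]
  · simp [c, io, mul_x, inv_x]

theorem not_fitting : ¬ IsFitting G := by
  intro hF
  obtain ⟨N, hNn, hNil, hN⟩ := hF ⟨c 0 (t 0 1 (by norm_num)), lin_mem (by norm_num)⟩
  -- the transvections `t 0 l`, `l > 1`, are in `N`
  have hT : ∀ l : ℚ, (h1 : 1 < l) → (h0 : (0 : ℚ) < l) →
      (⟨c 0 (t 0 l h0.ne), lin_mem h0⟩ : G) ∈ N := by
    intro l h1 h0
    set a : G := ⟨c 0 (t 0 1 (by norm_num)), lin_mem (by norm_num)⟩ with ha
    set b : G := ⟨c 0 (t 1 l h1.ne), lin_mem h1⟩ with hb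
    have hbb : b * b = 1 := Subtype.ext (by
      change c 0 _ * c 0 _ = 1
      rw [← map_mul, t_sq, map_one])
    have h2 : a * b * (a * b) ∈ N := by
      have : a * b * (a * b) = a * (b * a * b⁻¹) := by
        rw [← eq_inv_of_mul_eq_one_left hbb]; group
      rw [this]
      exact N.mul_mem hN (hNn.conj_mem a hN b)
    have h3 : (⟨c 0 (t 0 l h0.ne), lin_mem h0⟩ : G) = a * b * (a * b) := by
      apply Subtype.ext
      change c 0 (t 0 l h0.ne) = c 0 (t 0 1 _) * c 0 (t 1 l h1.ne) *
        (c 0 (t 0 1 _) * c 0 (t 1 l h1.ne))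
      simp only [← map_mul]
      rw [t_comm (by norm_num : (0 : ℚ) < 1) h1]
    rw [h3]
    exact h2
  -- the elements `io (fs k)`
  have hmem : ∀ k : ℕ, ∃ hG : io (fs k) ∈ G, ∃ hNk : (⟨io (fs k), hG⟩ : G) ∈ N,
      (⟨⟨io (fs k), hG⟩, hNk⟩ : N) ∈ (⊤ : Subgroup N).lowerCentralSeries k := by
    intro k
    induction k with
    | zero =>
      have hw : io (D (t 0 (1 / 2) (by norm_num)) (Finsupp.single (v 0) (1 : ZMod 2))) ∈ G := by
        rw [← io_eq]
        exact G.mul_mem (gen_mem (Finsupp.single (v 0) 1) (by norm_num))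
          (G.inv_mem (lin_mem (by norm_num)))
      have e : io (fs 0) = ⁅io (D (t 0 (1 / 2) (by norm_num)) (Finsupp.single (v 0) (1 : ZMod 2))),
          c 0 (t 0 1 (by norm_num))⁆ := by rw [comm_io]; rfl
      have hG : io (fs 0) ∈ G := by
        rw [e, commutatorElement_def]
        exact G.mul_mem (G.mul_mem (G.mul_mem hw (lin_mem (by norm_num))) (G.inv_mem hw))
          (G.inv_mem (lin_mem (by norm_num)))
      refine ⟨hG, ?_, ?_⟩
      · have : (⟨io (fs 0), hG⟩ : G) = (⟨_, hw⟩ * ⟨c 0 (t 0 1 (by norm_num)), lin_mem (by norm_num)⟩ *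
            (⟨_, hw⟩ : G)⁻¹) * (⟨c 0 (t 0 1 (by norm_num)), lin_mem (by norm_num)⟩ : G)⁻¹ := by
          apply Subtype.ext
          exact e
        rw [this]
        exact N.mul_mem (hNn.conj_mem _ hN _) (N.inv_mem hN)
      · rw [Subgroup.lowerCentralSeries_zero]; trivial
    | succ k ih =>
      obtain ⟨hG, hNk, hk⟩ := ih
      have h0 : (0 : ℚ) < (k : ℚ) + 2 := by positivity
      have h1 : (1 : ℚ) < (k : ℚ) + 2 := by
        have : (0 : ℚ) ≤ k := by positivity
        linarith
      set τ : N := ⟨⟨c 0 (t 0 ((k : ℚ) + 2) h0.ne), lin_mem h0⟩, hT _ h1 h0⟩ with hτ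
      set y : N := ⟨⟨io (fs k), hG⟩, hNk⟩ with hy
      have h2 : ⁅y, τ⁆ ∈ (⊤ : Subgroup N).lowerCentralSeries (k + 1) := by
        rw [Subgroup.lowerCentralSeries_succ]
        exact Subgroup.commutator_mem_commutator hk (Subgroup.mem_top τ)
      have e : (((⁅y, τ⁆ : N) : G) : Gam) = io (fs (k + 1)) := by
        have : (((⁅y, τ⁆ : N) : G) : Gam) = ⁅io (fs k), c 0 (t 0 ((k : ℚ) + 2) h0.ne)⁆ := rfl
        rw [this, comm_io]; rfl
      have hG' : io (fs (k + 1)) ∈ G := by rw [← e]; exact ((⁅y, τ⁆ : N) : G).2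
      have e2 : ((⁅y, τ⁆ : N) : G) = ⟨io (fs (k + 1)), hG'⟩ := Subtype.ext e
      have hN' : (⟨io (fs (k + 1)), hG'⟩ : G) ∈ N := by rw [← e2]; exact (⁅y, τ⁆ : N).2
      refine ⟨hG', hN', ?_⟩
      have e3 : (⁅y, τ⁆ : N) = ⟨⟨io (fs (k + 1)), hG'⟩, hN'⟩ := Subtype.ext e2
      rw [← e3]
      exact h2
  obtain ⟨k, hk⟩ := Subgroup.nilpotent_iff_lowerCentralSeries.1 hNil
  obtain ⟨hG, hNk, h⟩ := hmem k
  rw [hk, Subgroup.mem_bot] at h
  have h1 : io (fs k) = 1 := congrArg (fun z : N => ((z : G) : Gam)) h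
  have h2 : fs k (v 0) = 0 := by
    have := congrArg (fun z : Gam => z.f (v 0)) h1
    exact this
  rw [(fs_inv k).1] at h2
  exact one_ne_zero h2

/-- **Main theorem.**  There is a group that is pseudocentral and a Baer group but not a Fitting
group. -/
theorem result : ∃ (G : Type) (_ : Group G), IsPseudocentral G ∧ IsBaer G ∧ ¬ IsFitting G := by
  refine ⟨G, inferInstance, ?_, baer, not_fitting⟩
  rw [IsPseudocentral, pseudocentre, eq_top_iff]
  intro y _
  rw [Subgroup.mem_iInf]
  exact fun g => pseudocentral g y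

end

end Pool.Agent.Results.MP_a7b7fa_al.PseudocentralBaer
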